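import Pool.Agent.Y994.KW.Stm2

/-!
# Project KW, part two: the invariance principle from its parts
-/

set_option autoImplicit false

namespace Y286.KW

open Y994.KW Filter Topology MeasureTheory ProbabilityTheory

/-! ## averages -/

lemma card_pow_pos (α : Type) [Fintype α] [Nonempty α] (M : ℕ) :
    (0 : ℝ) < (Fintype.card α : ℝ) ^ M := by
  have : 0 < Fintype.card α := Fintype.card_pos
  positivity

lemma Ea_const {α : Type} [Fintype α] [Nonempty α] (M : ℕ) (r : ℝ) :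
    Ea M (fun _ : Fin M → α => r) = r := by
  have h := card_pow_pos α M
  unfold Ea
  rw [Finset.sum_const, Finset.card_univ, Fintype.card_fun, Fintype.card_fin, nsmul_eq_mul]
  push_cast
  field_simp

lemma Ea_mono {α : Type} [Fintype α] [Nonempty α] (M : ℕ) {f g : (Fin M → α) → ℝ}
    (h : ∀ c, f c ≤ g c) : Ea M f ≤ Ea M g := by
  have hp := card_pow_pos α M
  unfold Ea
  exact div_le_div_of_nonneg_right (Finset.sum_le_sum (fun c _ => h c)) hp.le

lemma Ea_add {α : Type} [Fintype α] (M : ℕ) (f g : (Fin M → α) → ℝ) :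
    Ea M (fun c => f c + g c) = Ea M f + Ea M g := by
  unfold Ea
  rw [Finset.sum_add_distrib, add_div]

lemma Ea_smul {α : Type} [Fintype α] (M : ℕ) (r : ℝ) (f : (Fin M → α) → ℝ) :
    Ea M (fun c => r * f c) = r * Ea M f := by
  unfold Ea
  rw [← Finset.mul_sum, mul_div_assoc]

lemma Ec_sub_le {α : Type} [Fintype α] [Nonempty α] (M : ℕ) (f g : (Fin M → α) → ℂ) :
    ‖Ec M f - Ec M g‖ ≤ Ea M (fun c => ‖f c - g c‖) := by
  have hp := card_pow_pos α M
  unfold Ec Ea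
  rw [← sub_div, ← Finset.sum_sub_distrib, norm_div]
  have : ‖((Fintype.card α : ℂ)) ^ M‖ = (Fintype.card α : ℝ) ^ M := by
    rw [norm_pow]; simp
  rw [this]
  exact div_le_div_of_nonneg_right (norm_sum_le _ _) hp.le

/-! ## the law of a random path -/

/-- the law of the path `P c`, `c` uniform -/
noncomputable def law {α : Type} [Fintype α] (M : ℕ) (P : (Fin M → α) → Pa) : Measure Pa :=
  ∑ c : Fin M → α, (ENNReal.ofReal (((Fintype.card α : ℝ) ^ M)⁻¹)) • Measure.dirac (P c)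

lemma law_apply {α : Type} [Fintype α] [Nonempty α] (M : ℕ) (P : (Fin M → α) → Pa) (S : Set Pa)
    [DecidablePred (fun c : Fin M → α => P c ∈ S)] :
    law M P S = ENNReal.ofReal (Ea M (fun c => if P c ∈ S then (1 : ℝ) else 0)) := by
  have hp := card_pow_pos α M
  unfold law Ea
  rw [Measure.finsetSum_apply]
  rw [div_eq_mul_inv, Finset.sum_mul, ENNReal.ofReal_sum_of_nonneg]
  · refine Finset.sum_congr rfl (fun c _ => ?_)
    rw [Measure.smul_apply, Measure.dirac_apply, smul_eq_mul]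
    by_cases h : P c ∈ S
    · simp [h]
    · simp [h]
  · intro c _
    split_ifs <;> positivity

lemma isProb_law {α : Type} [Fintype α] [Nonempty α] (M : ℕ) (P : (Fin M → α) → Pa) :
    IsProbabilityMeasure (law M P) := by
  classical
  constructor
  rw [law_apply]
  simp only [Set.mem_univ, if_true]
  rw [Ea_const]
  simp

lemma int_law {α : Type} [Fintype α] [Nonempty α] (M : ℕ) (P : (Fin M → α) → Pa) (f : Pa → ℝ) :
    ∫ w, f w ∂(law M P) = Ea M (fun c => f (P c)) := by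
  have hp := card_pow_pos α M
  unfold law
  rw [integral_finsetSum_measure]
  · unfold Ea
    rw [div_eq_mul_inv, Finset.sum_mul]
    refine Finset.sum_congr rfl (fun c _ => ?_)
    rw [integral_smul_measure, integral_dirac, ENNReal.toReal_ofReal (by positivity),
      smul_eq_mul, mul_comm]
  · intro c _
    exact (integrable_dirac (by simp)).smul_measure ENNReal.ofReal_ne_top

lemma int_lawc {α : Type} [Fintype α] [Nonempty α] (M : ℕ) (P : (Fin M → α) → Pa) (f : Pa → ℂ) :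
    ∫ w, f w ∂(law M P) = Ec M (fun c => f (P c)) := by
  have hp := card_pow_pos α M
  unfold law
  rw [integral_finsetSum_measure]
  · unfold Ec
    rw [div_eq_mul_inv, Finset.sum_mul]
    refine Finset.sum_congr rfl (fun c _ => ?_)
    rw [integral_smul_measure, integral_dirac, ENNReal.toReal_ofReal (by positivity), mul_comm]
    rw [Complex.real_smul]
    push_cast
    rfl
  · intro c _
    exact (integrable_dirac (by simp)).smul_measure ENNReal.ofReal_ne_top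

/-! ## the polygonal path -/

lemma pth_node (a : ℝ) (y : ℕ → ℝ) (M m : ℕ) (hm : m ≤ M) (hM : 1 ≤ M) (s : unitInterval)
    (hs : (s : ℝ) = m / M) : pth a y M s = a * y m := by
  have hM' : (0 : ℝ) < M := by exact_mod_cast hM
  have h1 : (s : ℝ) * M = m := by rw [hs]; field_simp
  show a * (y 0 + ∑ i ∈ Finset.range M, (y (i + 1) - y i) * max 0 (min 1 ((s : ℝ) * M - i))) = _
  rw [h1]
  congr 1
  have h2 : ∀ i ∈ Finset.range M, (y (i + 1) - y i) * max 0 (min 1 ((m : ℝ) - i))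
      = if i < m then (y (i + 1) - y i) else 0 := by
    intro i _
    by_cases hi : i < m
    · have : (1 : ℝ) ≤ (m : ℝ) - i := by
        have : ((i + 1 : ℕ) : ℝ) ≤ (m : ℝ) := by exact_mod_cast hi
        push_cast at this
        linarith
      rw [min_eq_left this, max_eq_right (by norm_num), mul_one, if_pos hi]
    · have : (m : ℝ) - i ≤ 0 := by
        have : (m : ℝ) ≤ (i : ℝ) := by exact_mod_cast (not_lt.mp hi)
        linarith
      rw [min_eq_right (by linarith), max_eq_left this, mul_zero, if_neg hi]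
  rw [Finset.sum_congr rfl h2, ← Finset.sum_filter]
  have h3 : (Finset.range M).filter (fun i => i < m) = Finset.range m := by
    ext i
    simp only [Finset.mem_filter, Finset.mem_range]
    omega
  rw [h3, Finset.sum_range_sub]
  ring

lemma pth_zero (a : ℝ) (y : ℕ → ℝ) (M : ℕ) : pth a y M 0 = a * y 0 := by
  show a * (y 0 + ∑ i ∈ Finset.range M, (y (i + 1) - y i) *
    max 0 (min 1 (((0 : unitInterval) : ℝ) * M - i))) = _
  have : ∀ i ∈ Finset.range M, (y (i + 1) - y i) *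
      max 0 (min 1 (((0 : unitInterval) : ℝ) * M - i)) = 0 := by
    intro i _
    have h0 : ((0 : unitInterval) : ℝ) * M - i ≤ 0 := by
      simp
    rw [min_eq_right (by linarith), max_eq_left h0, mul_zero]
  rw [Finset.sum_eq_zero this, add_zero]

lemma Yr_zero {α : Type} [Fintype α] [Nonempty α] {Y : ∀ M : ℕ, (Fin M → α) → ℝ} {B D : ℝ} {m0 : ℕ}
    (h : Qa Y B D m0) {M : ℕ} (c : Fin M → α) : Yr Y c 0 = 0 := by
  have h0 := h.mean 0
  unfold Ea at h0
  rw [Fintype.sum_unique] at h0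
  simp only [pow_zero, div_one] at h0
  unfold Yr
  rw [← h0]
  congr 1
  exact Subsingleton.elim _ _

/-- the floor point of `s` -/
lemma floor_pt (M : ℕ) (hM : 1 ≤ M) (s : unitInterval) :
    ∃ u : unitInterval, (u : ℝ) = (⌊(s : ℝ) * M⌋₊ : ℝ) / M ∧ ⌊(s : ℝ) * M⌋₊ ≤ M ∧
      |(s : ℝ) - u| ≤ 1 / M := by
  have hM' : (0 : ℝ) < M := by exact_mod_cast hM
  have hs0 := s.2.1
  have hs1 := s.2.2
  have h1 : (⌊(s : ℝ) * M⌋₊ : ℝ) ≤ (s : ℝ) * M := Nat.floor_le (by positivity)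
  have h2 : (s : ℝ) * M < (⌊(s : ℝ) * M⌋₊ : ℝ) + 1 := Nat.lt_floor_add_one _
  have h3 : (s : ℝ) * M ≤ M := by nlinarith
  have h4 : ⌊(s : ℝ) * M⌋₊ ≤ M := by
    have : (⌊(s : ℝ) * M⌋₊ : ℝ) ≤ (M : ℝ) := h1.trans h3
    exact_mod_cast this
  refine ⟨⟨(⌊(s : ℝ) * M⌋₊ : ℝ) / M, by positivity, ?_⟩, rfl, h4, ?_⟩
  · rw [div_le_one hM']
    exact h1.trans h3
  · show |(s : ℝ) - (⌊(s : ℝ) * M⌋₊ : ℝ) / M| ≤ 1 / M
    rw [abs_le]
    constructor
    · have : (⌊(s : ℝ) * M⌋₊ : ℝ) / M ≤ s := by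
        rw [div_le_iff₀ hM']; exact h1
      have h5 : (0 : ℝ) < 1 / M := by positivity
      linarith
    · have : (s : ℝ) ≤ ((⌊(s : ℝ) * M⌋₊ : ℝ) + 1) / M := by
        rw [le_div_iff₀ hM']; exact h2.le
      rw [add_div] at this
      linarith

/-- exponentials of real numbers are Lipschitz -/
lemma norm_exp_sub_le (x y : ℝ) :
    ‖Complex.exp ((x : ℂ) * Complex.I) - Complex.exp ((y : ℂ) * Complex.I)‖ ≤ |x - y| := by
  have h : Complex.exp ((x : ℂ) * Complex.I) - Complex.exp ((y : ℂ) * Complex.I)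
      = Complex.exp ((y : ℂ) * Complex.I) * (Complex.exp (Complex.I * ((x - y : ℝ) : ℂ)) - 1) := by
    rw [mul_sub, mul_one, ← Complex.exp_add]
    congr 2
    push_cast
    ring
  rw [h, norm_mul, Complex.norm_exp_ofReal_mul_I, one_mul]
  simpa using Real.norm_exp_I_mul_ofReal_sub_one_le (x := x - y)

lemma norm_exp_sub_le_two (x y : ℝ) :
    ‖Complex.exp ((x : ℂ) * Complex.I) - Complex.exp ((y : ℂ) * Complex.I)‖ ≤ 2 := by
  refine (norm_sub_le _ _).trans ?_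
  rw [Complex.norm_exp_ofReal_mul_I, Complex.norm_exp_ofReal_mul_I]
  norm_num

/-- comparison of the characteristic functions of the path and of the prefixes -/
lemma char_cmp {α : Type} [Fintype α] [Nonempty α] (Y : ∀ M : ℕ, (Fin M → α) → ℝ) (r : ℝ) (M : ℕ)
    (hM : 1 ≤ M) (δ e : ℝ) (he : 0 < e) (hδ : 1 / (M : ℝ) ≤ δ) {k : ℕ}
    (t : Fin (k + 1) → unitInterval) (θ : Fin k → ℝ)
    [∀ c : Fin M → α, Decidable (∃ s t : unitInterval, |(s : ℝ) - t| ≤ δ ∧
      e ≤ |pth (1 / r) (Yr Y c) M s - pth (1 / r) (Yr Y c) M t|)] :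
    ‖Ec M (fun c : Fin M → α => Complex.exp (((∑ j : Fin k, θ j * (pth (1 / r) (Yr Y c) M (t j.succ)
        - pth (1 / r) (Yr Y c) M (t j.castSucc)) : ℝ) : ℂ) * Complex.I))
      - Ec M (fun c : Fin M → α => Complex.exp (((∑ j : Fin k, θ j *
        ((Yr Y c ⌊(t j.succ : ℝ) * M⌋₊ - Yr Y c ⌊(t j.castSucc : ℝ) * M⌋₊) / r) : ℝ) : ℂ)
          * Complex.I))‖
      ≤ 2 * e * ∑ j : Fin k, |θ j| + 2 * Ea M (fun c : Fin M → α =>
        if ∃ s t : unitInterval, |(s : ℝ) - t| ≤ δ ∧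
          e ≤ |pth (1 / r) (Yr Y c) M s - pth (1 / r) (Yr Y c) M t| then (1 : ℝ) else 0) := by
  refine (Ec_sub_le M _ _).trans ?_
  rw [← Ea_smul, ← Ea_const (α := α) M (2 * e * ∑ j : Fin k, |θ j|), ← Ea_add]
  refine Ea_mono M (fun c => ?_)
  by_cases hc : ∃ s t : unitInterval, |(s : ℝ) - t| ≤ δ ∧
      e ≤ |pth (1 / r) (Yr Y c) M s - pth (1 / r) (Yr Y c) M t|
  · rw [if_pos hc]
    have h2 := norm_exp_sub_le_two (∑ j : Fin k, θ j * (pth (1 / r) (Yr Y c) M (t j.succ)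
        - pth (1 / r) (Yr Y c) M (t j.castSucc))) (∑ j : Fin k, θ j *
        ((Yr Y c ⌊(t j.succ : ℝ) * M⌋₊ - Yr Y c ⌊(t j.castSucc : ℝ) * M⌋₊) / r))
    have h3 : 0 ≤ 2 * e * ∑ j : Fin k, |θ j| := by positivity
    linarith
  · rw [if_neg hc, mul_zero, add_zero]
    refine (norm_exp_sub_le _ _).trans ?_
    rw [← Finset.sum_sub_distrib, Finset.mul_sum]
    refine (Finset.abs_sum_le_sum_abs _ _).trans (Finset.sum_le_sum (fun j _ => ?_))
    rw [← mul_sub, abs_mul, mul_comm]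
    refine mul_le_mul_of_nonneg_right ?_ (abs_nonneg _)
    push Not at hc
    have key : ∀ s : unitInterval, |pth (1 / r) (Yr Y c) M s - (1 / r) * Yr Y c ⌊(s : ℝ) * M⌋₊| ≤ e := by
      intro s
      obtain ⟨u, hu, hle, hsu⟩ := floor_pt M hM s
      rw [← pth_node (1 / r) (Yr Y c) M _ hle hM u hu]
      exact (hc s u (hsu.trans hδ)).le
    have k1 := abs_le.mp (key (t j.succ))
    have k2 := abs_le.mp (key (t j.castSucc))
    have h4 : pth (1 / r) (Yr Y c) M (t j.succ) - pth (1 / r) (Yr Y c) M (t j.castSucc)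
        - (Yr Y c ⌊(t j.succ : ℝ) * M⌋₊ - Yr Y c ⌊(t j.castSucc : ℝ) * M⌋₊) / r
        = (pth (1 / r) (Yr Y c) M (t j.succ) - (1 / r) * Yr Y c ⌊(t j.succ : ℝ) * M⌋₊)
        - (pth (1 / r) (Yr Y c) M (t j.castSucc) - (1 / r) * Yr Y c ⌊(t j.castSucc : ℝ) * M⌋₊) := by
      ring
    rw [h4, abs_le]
    constructor <;> linarith [k1.1, k1.2, k2.1, k2.2]

/-- the laws of the paths of a family -/
noncomputable def mu (α : ℕ → Type) [∀ i, Fintype (α i)] [∀ i, Nonempty (α i)]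
    (Y : ∀ i M : ℕ, (Fin M → α i) → ℝ) (D : ℕ → ℝ) (M : ℕ → ℕ) (i : ℕ) : ProbabilityMeasure Pa :=
  ⟨law (M i) (fun c : Fin (M i) → α i => pth (1 / √(D i * M i)) (Yr (Y i) c) (M i)), isProb_law _ _⟩

lemma mu_coe (α : ℕ → Type) [∀ i, Fintype (α i)] [∀ i, Nonempty (α i)]
    (Y : ∀ i M : ℕ, (Fin M → α i) → ℝ) (D : ℕ → ℝ) (M : ℕ → ℕ) (i : ℕ) :
    (mu α Y D M i : Measure Pa) =
      law (M i) (fun c : Fin (M i) → α i => pth (1 / √(D i * M i)) (Yr (Y i) c) (M i)) := rfl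

lemma ev_len {δ0 : ℝ} {α : ℕ → Type} [∀ i, Fintype (α i)] [∀ i, Nonempty (α i)]
    {Y : ∀ i M : ℕ, (Fin M → α i) → ℝ} {B D : ℕ → ℝ} {m0 M : ℕ → ℕ} (h : Fam δ0 α Y B D m0 M)
    (A : ℝ) : ∀ᶠ i in atTop, A * m0 i ≤ M i := by
  filter_upwards [h.len.eventually_ge_atTop A] with i hi
  have hm : (0 : ℝ) < m0 i := by exact_mod_cast (h.qa i).mpos
  rwa [le_div_iff₀ hm] at hi

lemma ev_large {δ0 : ℝ} {α : ℕ → Type} [∀ i, Fintype (α i)] [∀ i, Nonempty (α i)]
    {Y : ∀ i M : ℕ, (Fin M → α i) → ℝ} {B D : ℕ → ℝ} {m0 M : ℕ → ℕ} (h : Fam δ0 α Y B D m0 M)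
    (δ : ℝ) (hδ : 0 < δ) : ∀ᶠ i in atTop, 1 ≤ M i ∧ 1 / (M i : ℝ) ≤ δ := by
  filter_upwards [ev_len h 1, ev_len h (1 / δ)] with i h1 h2
  have hm : (1 : ℝ) ≤ m0 i := by exact_mod_cast (h.qa i).mpos
  have h3 : (1 : ℝ) ≤ M i := by linarith
  refine ⟨by exact_mod_cast h3, ?_⟩
  have h4 : 1 / δ ≤ M i := by
    have : 1 / δ * 1 ≤ 1 / δ * m0 i := mul_le_mul_of_nonneg_left hm (by positivity)
    linarith
  rw [div_le_iff₀ (by linarith)]
  rw [div_le_iff₀ hδ] at h4
  linarith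

lemma crit_mu (hF : S_FDD) (hM : S_MODP) {δ0 : ℝ} (hδ0 : 0 < δ0) {α : ℕ → Type}
    [∀ i, Fintype (α i)] [∀ i, Nonempty (α i)]
    {Y : ∀ i M : ℕ, (Fin M → α i) → ℝ} {B D : ℕ → ℝ} {m0 M : ℕ → ℕ} (h : Fam δ0 α Y B D m0 M) :
    Crit (mu α Y D M) := by
  classical
  refine ⟨fun i => ?_, ?_, ?_⟩
  · rw [mu_coe, ae_iff, law_apply, ENNReal.ofReal_eq_zero]
    refine le_trans (Ea_mono (M i) (g := fun _ => 0) (fun c => ?_)) (Ea_const (α := α i) (M i) 0).le
    have hz : pth (1 / √(D i * M i)) (Yr (Y i) c) (M i) 0 = 0 := by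
      rw [pth_zero, Yr_zero (h.qa i), mul_zero]
    rw [if_neg]
    intro hcon
    exact hcon hz
  · intro ε η hε hη
    obtain ⟨δ, A, hδ, hA, hmod⟩ := hM δ0 ε η hδ0 hε hη
    obtain ⟨i0, hi0⟩ := (eventually_atTop.mp (ev_len h A))
    refine ⟨δ, i0, hδ, fun i hi => ?_⟩
    show (mu α Y D M i : Measure Pa) _ ≤ _
    rw [mu_coe, law_apply]
    refine ENNReal.ofReal_le_ofReal ?_
    exact hmod (α i) (Y i) (B i) (D i) (m0 i) (h.qa i) (h.osc i) (h.low i) (M i) (hi0 i hi)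
  · intro k t θ ht
    rw [Metric.tendsto_atTop]
    intro r hr
    set T : ℝ := ∑ j : Fin k, |θ j| with hT
    have hT0 : 0 ≤ T := Finset.sum_nonneg (fun j _ => abs_nonneg _)
    -- parameters
    set e : ℝ := r / (8 * (T + 1)) with he
    have hep : 0 < e := by positivity
    have hr8 : 0 < r / 8 := by positivity
    obtain ⟨δ, A, hδ, hA, hmod⟩ := hM δ0 e (r / 8) hδ0 hep hr8
    obtain ⟨A', hA', hfdd⟩ := hF δ0 (r / 8) k (fun j => (t j : ℝ)) θ hδ0 hr8
      (fun a b hab => ht hab) (t 0).2.1 (t (Fin.last k)).2.2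
    obtain ⟨i0, hi0⟩ := eventually_atTop.mp
      ((ev_len h A).and ((ev_len h A').and (ev_large h δ hδ)))
    refine ⟨i0, fun i hi => ?_⟩
    obtain ⟨h1, h2, h3, h4⟩ := hi0 i hi
    have c1 := hmod (α i) (Y i) (B i) (D i) (m0 i) (h.qa i) (h.osc i) (h.low i) (M i) h1
    have c2 := hfdd (α i) (Y i) (B i) (D i) (m0 i) (h.qa i) (h.low i) (M i) h2
    have c3 := char_cmp (Y i) (√(D i * M i)) (M i) h3 δ e hep h4 t θ
    have c4 : chI (mu α Y D M i : Measure Pa) t θ = Ec (M i) (fun c : Fin (M i) → α i =>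
        Complex.exp (((∑ j : Fin k, θ j * (pth (1 / √(D i * M i)) (Yr (Y i) c) (M i) (t j.succ)
        - pth (1 / √(D i * M i)) (Yr (Y i) c) (M i) (t j.castSucc)) : ℝ) : ℂ) * Complex.I)) := by
      unfold chI
      rw [mu_coe, int_lawc]
    rw [dist_eq_norm, c4]
    have c5 : 2 * e * T ≤ r / 4 := by
      rw [he]
      have : 2 * (r / (8 * (T + 1))) * T = (r / 4) * (T / (T + 1)) := by
        field_simp
        ring
      rw [this]
      have h5 : T / (T + 1) ≤ 1 := by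
        rw [div_le_one (by positivity)]
        linarith
      nlinarith
    unfold chB
    calc _ ≤ _ := norm_sub_le_norm_sub_add_norm_sub _ _ _
      _ ≤ (2 * e * T + 2 * (r / 8)) + r / 8 := add_le_add (c3.trans (by linarith)) c2
      _ < r := by linarith

theorem t_INV : S_FDD → S_MODP → S_DON → S_INV := by
  intro hF hM hD δ0 hδ0 α₀ _ _ Y₀ B₀ D₀ m₀ M₀ h0
  obtain ⟨W, hW, hconv⟩ := hD _ (crit_mu hF hM hδ0 h0)
  refine ⟨(W : Measure Pa), hW, ?_⟩
  intro α _ _ Y B D m0 M h F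
  have h1 := hconv _ (crit_mu hF hM hδ0 h)
  rw [ProbabilityMeasure.tendsto_iff_forall_integral_tendsto] at h1
  have h2 := h1 F
  refine h2.congr (fun i => ?_)
  rw [mu_coe, int_law]

end Y286.KW
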